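import Mathlib

/-!
Basic facts on off-diagonal Ramsey numbers: Erdos-Szekeres upper bound, Erdos lower bound,
and the arrow relation for finite sets of vertices of an arbitrary graph.
-/

open Finset

namespace Pool.Agent.H28.Ramsey

/-- The arrow relation: every set `A` of at least `n` vertices of a graph contains a `k`-clique
or an independent set of size `l`. -/
def Arr (n k l : ℕ) : Prop :=
  ∀ (V : Type) (G : SimpleGraph V) (A : Finset V), n ≤ #A →
    (∃ S ⊆ A, G.IsNClique k S) ∨ (∃ S ⊆ A, Gᶜ.IsNClique l S)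

/-- The off-diagonal Ramsey number. -/
noncomputable def ramsey (k l : ℕ) : ℕ :=
  sInf {n | 0 < n ∧ ∀ G : SimpleGraph (Fin n),
    (∃ S : Finset (Fin n), G.IsNClique k S) ∨ (∃ S : Finset (Fin n), Gᶜ.IsNClique l S)}

lemma arr_of_fin {n k l : ℕ} (h : ∀ G : SimpleGraph (Fin n),
    (∃ S : Finset (Fin n), G.IsNClique k S) ∨ (∃ S : Finset (Fin n), Gᶜ.IsNClique l S)) :
    Arr n k l := by
  intro V G A hA
  classical
  obtain ⟨A', hA', hcard⟩ := Finset.exists_subset_card_eq hA
  let e : Fin n ↪ V := (A'.equivFinOfCardEq hcard).symm.toEmbedding.trans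
    (Function.Embedding.subtype _)
  have hmem : ∀ i, e i ∈ A := fun i => hA' ((A'.equivFinOfCardEq hcard).symm i).2
  have hsub : ∀ S : Finset (Fin n), S.map e ⊆ A := by
    intro S v hv
    obtain ⟨i, _, rfl⟩ := Finset.mem_map.1 hv
    exact hmem i
  rcases h (G.comap e) with ⟨S, hS⟩ | ⟨S, hS⟩
  · left
    refine ⟨S.map e, hsub S, ?_⟩
    rw [SimpleGraph.isNClique_iff] at hS ⊢
    refine ⟨?_, by rw [Finset.card_map]; exact hS.2⟩
    intro a ha b hb hab
    simp only [Finset.coe_map, Set.mem_image, Finset.mem_coe] at ha hb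
    obtain ⟨i, hi, rfl⟩ := ha
    obtain ⟨j, hj, rfl⟩ := hb
    have hij : i ≠ j := fun h => hab (by rw [h])
    exact hS.1 (Finset.mem_coe.2 hi) (Finset.mem_coe.2 hj) hij
  · right
    refine ⟨S.map e, hsub S, ?_⟩
    rw [SimpleGraph.isNClique_iff] at hS ⊢
    refine ⟨?_, by rw [Finset.card_map]; exact hS.2⟩
    intro a ha b hb hab
    simp only [Finset.coe_map, Set.mem_image, Finset.mem_coe] at ha hb
    obtain ⟨i, hi, rfl⟩ := ha
    obtain ⟨j, hj, rfl⟩ := hb
    have hij : i ≠ j := fun h => hab (by rw [h])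
    have := hS.1 (Finset.mem_coe.2 hi) (Finset.mem_coe.2 hj) hij
    rw [SimpleGraph.compl_adj] at this ⊢
    exact ⟨hab, fun h => this.2 h⟩

lemma Arr.mono {n n' k l : ℕ} (h : Arr n k l) (hn : n ≤ n') : Arr n' k l :=
  fun V G A hA => h V G A (hn.trans hA)

lemma Arr.swap {n k l : ℕ} (h : Arr n k l) : Arr n l k := by
  intro V G A hA
  rcases h V Gᶜ A hA with h | h
  · exact Or.inr h
  · rw [compl_compl] at h
    exact Or.inl h

/-- Erdos-Szekeres. -/
lemma arr_es : ∀ (s k l : ℕ), k + l = s → Arr ((k + l).choose k) (k + 1) (l + 1) := by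
  intro s
  induction s with
  | zero =>
    intro k l h V G A hA
    classical
    obtain rfl : k = 0 := by omega
    obtain rfl : l = 0 := by omega
    simp only [add_zero, Nat.choose_self] at hA
    obtain ⟨v, hv⟩ := Finset.card_pos.1 (by omega : 0 < #A)
    left
    refine ⟨{v}, by simpa using hv, ?_⟩
    simp [SimpleGraph.isNClique_iff]
  | succ s ih =>
    intro k l h V G A hA
    classical
    rcases Nat.eq_zero_or_pos k with rfl | hk
    · simp only [Nat.choose_zero_right] at hA
      obtain ⟨v, hv⟩ := Finset.card_pos.1 (by omega : 0 < #A)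
      left
      refine ⟨{v}, by simpa using hv, ?_⟩
      simp [SimpleGraph.isNClique_iff]
    rcases Nat.eq_zero_or_pos l with rfl | hl
    · simp only [add_zero, Nat.choose_self] at hA
      obtain ⟨v, hv⟩ := Finset.card_pos.1 (by omega : 0 < #A)
      right
      refine ⟨{v}, by simpa using hv, ?_⟩
      simp [SimpleGraph.isNClique_iff]
    obtain ⟨k, rfl⟩ : ∃ k', k = k' + 1 := ⟨k - 1, by omega⟩
    obtain ⟨l, rfl⟩ : ∃ l', l = l' + 1 := ⟨l - 1, by omega⟩
    have h1 := ih k (l + 1) (by omega)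
    have h2 := ih (k + 1) l (by omega)
    have hch : (k + 1 + (l + 1)).choose (k + 1) =
        (k + (l + 1)).choose k + (k + 1 + l).choose (k + 1) := by
      have : k + 1 + (l + 1) = (k + (l + 1)) + 1 := by ring
      rw [this, Nat.choose_succ_succ]
      congr 2
      ring
    rw [hch] at hA
    have hp1 : 0 < (k + (l + 1)).choose k := Nat.choose_pos (by omega)
    obtain ⟨v, hv⟩ := Finset.card_pos.1 (by omega : 0 < #A)
    set R := (A.erase v).filter (fun w => G.Adj v w) with hR
    set B := (A.erase v).filter (fun w => ¬ G.Adj v w) with hB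
    have hcard : #R + #B = #A - 1 := by
      rw [hR, hB, Finset.card_filter_add_card_filter_not, Finset.card_erase_of_mem hv]
    have hRv : ∀ w ∈ R, w ∈ A ∧ G.Adj v w := by
      intro w hw
      rw [hR, Finset.mem_filter, Finset.mem_erase] at hw
      exact ⟨hw.1.2, hw.2⟩
    have hBv : ∀ w ∈ B, w ∈ A ∧ Gᶜ.Adj v w := by
      intro w hw
      rw [hB, Finset.mem_filter, Finset.mem_erase] at hw
      exact ⟨hw.1.2, by rw [SimpleGraph.compl_adj]; exact ⟨fun h => hw.1.1 h.symm, hw.2⟩⟩
    by_cases hcase : (k + (l + 1)).choose k ≤ #R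
    · rcases h1 V G R hcase with ⟨S, hSR, hS⟩ | ⟨S, hSR, hS⟩
      · left
        refine ⟨insert v S, ?_, ?_⟩
        · intro w hw
          rcases Finset.mem_insert.1 hw with rfl | hw
          · exact hv
          · exact (hRv w (hSR hw)).1
        · exact hS.insert (fun w hw => (hRv w (hSR hw)).2)
      · right
        exact ⟨S, fun w hw => (hRv w (hSR hw)).1, hS⟩
    · have hcase2 : (k + 1 + l).choose (k + 1) ≤ #B := by omega
      rcases h2 V G B hcase2 with ⟨S, hSR, hS⟩ | ⟨S, hSR, hS⟩
      · left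
        exact ⟨S, fun w hw => (hBv w (hSR hw)).1, hS⟩
      · right
        refine ⟨insert v S, ?_, ?_⟩
        · intro w hw
          rcases Finset.mem_insert.1 hw with rfl | hw
          · exact hv
          · exact (hBv w (hSR hw)).1
        · exact hS.insert (fun w hw => (hBv w (hSR hw)).2)

lemma ramsey_nonempty (k l : ℕ) : {n | 0 < n ∧ ∀ G : SimpleGraph (Fin n),
    (∃ S : Finset (Fin n), G.IsNClique k S) ∨
      (∃ S : Finset (Fin n), Gᶜ.IsNClique l S)}.Nonempty := by
  refine ⟨(k + l).choose k, Nat.choose_pos (by omega), fun G => ?_⟩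
  rcases arr_es _ k l rfl (Fin ((k + l).choose k)) G Finset.univ (by simp) with
    ⟨S, _, hS⟩ | ⟨S, _, hS⟩
  · left
    obtain ⟨T, hT, hc⟩ := Finset.exists_subset_card_eq (s := S) (n := k) (by rw [hS.card_eq]; omega)
    exact ⟨T, ⟨hS.isClique.subset (by exact_mod_cast hT), hc⟩⟩
  · right
    obtain ⟨T, hT, hc⟩ := Finset.exists_subset_card_eq (s := S) (n := l) (by rw [hS.card_eq]; omega)
    exact ⟨T, ⟨hS.isClique.subset (by exact_mod_cast hT), hc⟩⟩

lemma ramsey_spec (k l : ℕ) : 0 < ramsey k l ∧ ∀ G : SimpleGraph (Fin (ramsey k l)),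
    (∃ S : Finset (Fin (ramsey k l)), G.IsNClique k S) ∨
      (∃ S : Finset (Fin (ramsey k l)), Gᶜ.IsNClique l S) :=
  Nat.sInf_mem (ramsey_nonempty k l)

lemma ramsey_pos (k l : ℕ) : 0 < ramsey k l := (ramsey_spec k l).1

lemma arr_ramsey (k l : ℕ) : Arr (ramsey k l) k l := arr_of_fin (ramsey_spec k l).2

lemma ramsey_le_choose (k l : ℕ) : ramsey (k + 1) (l + 1) ≤ (k + l).choose k := by
  apply Nat.sInf_le
  refine ⟨Nat.choose_pos (by omega), fun G => ?_⟩
  rcases arr_es _ k l rfl (Fin ((k + l).choose k)) G Finset.univ (by simp) with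
    ⟨S, _, hS⟩ | ⟨S, _, hS⟩
  · exact Or.inl ⟨S, hS⟩
  · exact Or.inr ⟨S, hS⟩

lemma exists_extremal (k l : ℕ) (h : 0 < ramsey k l - 1) :
    ∃ G : SimpleGraph (Fin (ramsey k l - 1)),
      (∀ S : Finset (Fin (ramsey k l - 1)), ¬ G.IsNClique k S) ∧
      (∀ S : Finset (Fin (ramsey k l - 1)), ¬ Gᶜ.IsNClique l S) := by
  have hnot : ramsey k l - 1 ∉ {n | 0 < n ∧ ∀ G : SimpleGraph (Fin n),
    (∃ S : Finset (Fin n), G.IsNClique k S) ∨ (∃ S : Finset (Fin n), Gᶜ.IsNClique l S)} :=
    Nat.notMem_of_lt_sInf (by unfold ramsey at h ⊢; omega)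
  by_contra hcon
  apply hnot
  refine ⟨h, fun G => ?_⟩
  by_contra hG
  push Not at hG
  exact hcon ⟨G, hG.1, hG.2⟩

/-- The number of functions that are constantly `b` on `F`. -/
lemma card_const {α : Type*} [Fintype α] [DecidableEq α] (F : Finset α) (b : Bool) :
    #((Finset.univ : Finset (α → Bool)).filter (fun f => ∀ a ∈ F, f a = b)) =
      2 ^ (Fintype.card α - #F) := by
  have : (Finset.univ : Finset (α → Bool)).filter (fun f => ∀ a ∈ F, f a = b) =
      Fintype.piFinset (fun a => if a ∈ F then ({b} : Finset Bool) else Finset.univ) := by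
    ext f
    simp only [Finset.mem_filter, Finset.mem_univ, true_and, Fintype.mem_piFinset]
    constructor
    · intro h a
      by_cases ha : a ∈ F
      · simp [ha, h a ha]
      · simp [ha]
    · intro h a ha
      have := h a
      simpa [ha] using this
  rw [this, Fintype.card_piFinset]
  have h2 : ∀ a, #(if a ∈ F then ({b} : Finset Bool) else Finset.univ) =
      if a ∈ F then 1 else 2 := by
    intro a
    split_ifs <;> simp
  simp_rw [h2]
  rw [Finset.prod_ite]
  simp only [Finset.prod_const_one, one_mul, Finset.prod_const]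
  congr 1
  rw [Finset.filter_not, Finset.filter_mem_eq_inter, Finset.univ_inter,
    Finset.card_sdiff_of_subset (Finset.subset_univ _), Finset.card_univ]

/-- Erdos lower bound by counting. -/
lemma exists_no_clique (n m : ℕ) (h : 2 * n.choose m < 2 ^ m.choose 2) :
    ∃ G : SimpleGraph (Fin n), (∀ S : Finset (Fin n), ¬ G.IsNClique m S) ∧
      (∀ S : Finset (Fin n), ¬ Gᶜ.IsNClique m S) := by
  classical
  rcases Nat.lt_or_ge n m with hnm | hnm
  · refine ⟨⊥, fun S hS => ?_, fun S hS => ?_⟩ <;>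
    · have h1 := hS.card_eq
      have h2 := Finset.card_le_univ S
      rw [Fintype.card_fin] at h2
      omega
  -- colourings of the pairs
  let g : (Sym2 (Fin n) → Bool) → SimpleGraph (Fin n) := fun χ =>
    SimpleGraph.fromRel (fun a b => χ s(a, b) = true)
  have hg : ∀ χ a b, (g χ).Adj a b ↔ a ≠ b ∧ χ s(a, b) = true := by
    intro χ a b
    simp only [g, SimpleGraph.fromRel_adj, Sym2.eq_swap (a := b) (b := a), or_self]
  by_contra hcon
  push Not at hcon
  -- the off-diagonal pairs of a set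
  let F : Finset (Fin n) → Finset (Sym2 (Fin n)) := fun S => S.offDiag.image (Function.uncurry Sym2.mk)
  have hF : ∀ S : Finset (Fin n), #S = m → #(F S) = m.choose 2 := by
    intro S hS
    rw [← hS]
    exact Sym2.card_image_offDiag S
  have hFmem : ∀ S : Finset (Fin n), ∀ z ∈ F S, ∃ a ∈ S, ∃ b ∈ S, a ≠ b ∧ z = s(a, b) := by
    intro S z hz
    simp only [F, Finset.mem_image, Finset.mem_offDiag] at hz
    obtain ⟨⟨a, b⟩, ⟨h1, h2, h3⟩, rfl⟩ := hz
    exact ⟨a, h1, b, h2, h3, rfl⟩
  have hcover : (Finset.univ : Finset (Sym2 (Fin n) → Bool)) ⊆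
      (((Finset.univ : Finset (Fin n)).powersetCard m) ×ˢ (Finset.univ : Finset Bool)).biUnion
        (fun p => (Finset.univ : Finset (Sym2 (Fin n) → Bool)).filter
          (fun f => ∀ a ∈ F p.1, f a = p.2)) := by
    intro χ _
    rw [Finset.mem_biUnion]
    by_cases h1 : ∃ S : Finset (Fin n), (g χ).IsNClique m S
    · obtain ⟨S, hS⟩ := h1
      refine ⟨(S, true), ?_, ?_⟩
      · simp [hS.card_eq]
      · simp only [Finset.mem_filter, Finset.mem_univ, true_and]
        intro z hz
        obtain ⟨a, ha, b, hb, hab, rfl⟩ := hFmem S z hz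
        exact ((hg χ a b).1 (hS.isClique ha hb hab)).2
    · push Not at h1
      obtain ⟨S, hS⟩ := hcon (g χ) h1
      refine ⟨(S, false), ?_, ?_⟩
      · simp [hS.card_eq]
      · simp only [Finset.mem_filter, Finset.mem_univ, true_and]
        intro z hz
        obtain ⟨a, ha, b, hb, hab, rfl⟩ := hFmem S z hz
        have := hS.isClique ha hb hab
        rw [SimpleGraph.compl_adj, hg] at this
        by_contra hne
        exact this.2 ⟨hab, by simpa using hne⟩
  have hle := (Finset.card_le_card hcover).trans Finset.card_biUnion_le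
  have hbound : ∑ p ∈ ((Finset.univ : Finset (Fin n)).powersetCard m) ×ˢ (Finset.univ : Finset Bool),
      #((Finset.univ : Finset (Sym2 (Fin n) → Bool)).filter (fun f => ∀ a ∈ F p.1, f a = p.2)) =
      (2 * n.choose m) * 2 ^ (Fintype.card (Sym2 (Fin n)) - m.choose 2) := by
    rw [Finset.sum_congr rfl (g := fun _ => 2 ^ (Fintype.card (Sym2 (Fin n)) - m.choose 2))]
    · rw [Finset.sum_const, Finset.card_product, Finset.card_powersetCard, Finset.card_univ,
        Fintype.card_fin, Finset.card_univ, Fintype.card_bool, smul_eq_mul]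
      ring
    · intro p hp
      rw [card_const, hF]
      rw [Finset.mem_product, Finset.mem_powersetCard] at hp
      exact hp.1.2
  rw [hbound, Finset.card_univ, Fintype.card_fun, Fintype.card_bool] at hle
  -- contradiction
  have hmn : m.choose 2 ≤ Fintype.card (Sym2 (Fin n)) := by
    by_contra hlt
    push Not at hlt
    obtain ⟨S, -, hS⟩ := Finset.exists_subset_card_eq (s := (Finset.univ : Finset (Fin n)))
      (n := m) (by simpa using hnm)
    have := hF S hS
    have h3 : #(F S) ≤ Fintype.card (Sym2 (Fin n)) := Finset.card_le_univ _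
    omega
  have hpow : 2 ^ Fintype.card (Sym2 (Fin n)) =
      2 ^ m.choose 2 * 2 ^ (Fintype.card (Sym2 (Fin n)) - m.choose 2) := by
    rw [← pow_add]
    congr 1
    omega
  rw [hpow] at hle
  have := Nat.le_of_mul_le_mul_right hle (by positivity)
  omega

lemma two_mul_choose_lt (m : ℕ) (hm : 3 ≤ m) :
    2 * (2 ^ ((m - 1) / 2)).choose m < 2 ^ m.choose 2 := by
  set n := 2 ^ ((m - 1) / 2) with hn
  have h1 : n.choose m * m.factorial ≤ n ^ m := by
    rw [mul_comm, ← Nat.descFactorial_eq_factorial_mul_choose]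
    exact Nat.descFactorial_le_pow n m
  have h2 : 6 ≤ m.factorial := by
    calc 6 = Nat.factorial 3 := rfl
      _ ≤ m.factorial := Nat.factorial_le hm
  have h3 : n ^ m ≤ 2 ^ m.choose 2 := by
    rw [hn, ← pow_mul]
    apply Nat.pow_le_pow_right (by norm_num)
    rw [Nat.choose_two_right]
    have h4 : (m - 1) / 2 * 2 ≤ m - 1 := Nat.div_mul_le_self _ _
    rw [Nat.le_div_iff_mul_le (by norm_num)]
    calc (m - 1) / 2 * m * 2 = ((m - 1) / 2 * 2) * m := by ring
      _ ≤ (m - 1) * m := Nat.mul_le_mul_right _ h4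
      _ = m * (m - 1) := by ring
  have h5 : 0 < 2 ^ m.choose 2 := by positivity
  have h6 : n.choose m * 6 ≤ n.choose m * m.factorial := Nat.mul_le_mul_left _ h2
  omega

/-- Lower bound for extremal colourings. -/
lemma two_pow_le_ramsey (k l m : ℕ) (hm : 3 ≤ m) (hk : m ≤ k) (hl : m ≤ l) :
    2 ^ ((m - 1) / 2) < ramsey k l := by
  by_contra hcon
  push Not at hcon
  obtain ⟨G, hG1, hG2⟩ := exists_no_clique _ m (two_mul_choose_lt m hm)
  rcases (arr_ramsey k l).mono hcon (Fin (2 ^ ((m - 1) / 2))) G Finset.univ (by simp) with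
    ⟨S, _, hS⟩ | ⟨S, _, hS⟩
  · obtain ⟨T, hT, hc⟩ := Finset.exists_subset_card_eq (s := S) (n := m) (by rw [hS.card_eq]; omega)
    exact hG1 T ⟨hS.isClique.subset (by exact_mod_cast hT), hc⟩
  · obtain ⟨T, hT, hc⟩ := Finset.exists_subset_card_eq (s := S) (n := m) (by rw [hS.card_eq]; omega)
    exact hG2 T ⟨hS.isClique.subset (by exact_mod_cast hT), hc⟩

end Pool.Agent.H28.Ramsey
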