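import Pool.Agent.H28.Ramsey.Unbal

/-!
The bounded ratio theorem for off-diagonal Ramsey numbers.
-/

open Finset

namespace Pool.Agent.H28.Ramsey

/-- The finite dichotomy. -/
lemma dichotomy (k l K t : ℕ) (hk : k ≤ K) (hl : l ≤ K) (hK : 0 < K)
    (hN : 0 < ramsey (k + 1) (l + 1) - 1) :
    (t + 1) ^ 2 * (ramsey (k + 1) (l + 1) - 1) ≤ 128 * K ^ 2 * ramsey k l ∨
    ramsey (k + 1) (l + 1) - 1 ≤
      8 * (((K + t).choose t + K) * ∑ i ∈ Finset.range (t + 1), K.choose i) := by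
  classical
  have hex := exists_extremal (k + 1) (l + 1) hN
  set N := ramsey (k + 1) (l + 1) - 1 with hNdef
  obtain ⟨G, hG1, hG2⟩ := hex
  set R := ramsey k l with hR
  set D := (t + 1) * N / (8 * K) with hD
  have hD1 : 8 * K * D ≤ (t + 1) * N := by
    rw [hD]; exact Nat.mul_div_le _ _
  have hD2 : (t + 1) * N ≤ 8 * K * (D + 1) := by
    rw [hD]
    exact (Nat.lt_mul_div_succ _ (by positivity)).le
  have hG2' : ∀ S : Finset (Fin N), ¬ Gᶜᶜ.IsNClique (k + 1) S := by
    rw [compl_compl]; exact hG1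
  have hchoose : ∀ j, j ≤ K → (j + t).choose j ≤ (K + t).choose t := by
    intro j hj
    rw [Nat.choose_symm_add]
    exact Nat.choose_le_choose t (by omega)
  have hsum : ∀ j, j ≤ K → ∑ i ∈ Finset.range (t + 1), j.choose i ≤
      ∑ i ∈ Finset.range (t + 1), K.choose i :=
    fun j hj => Finset.sum_le_sum fun i _ => Nat.choose_le_choose i hj
  set A1 := (Finset.univ : Finset (Fin N)).filter
    (fun x => #(Finset.univ.filter (G.Adj x)) ≤ D) with hA1
  set A2 := (Finset.univ : Finset (Fin N)).filter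
    (fun x => #(Finset.univ.filter (Gᶜ.Adj x)) ≤ D) with hA2
  set H := (Finset.univ : Finset (Fin N)).filter
    (fun x => ¬ (#(Finset.univ.filter (G.Adj x)) ≤ D) ∧
      ¬ (#(Finset.univ.filter (Gᶜ.Adj x)) ≤ D)) with hH
  have hcov : N ≤ #H + (#A1 + #A2) := by
    have : (Finset.univ : Finset (Fin N)) ⊆ H ∪ (A1 ∪ A2) := by
      intro x _
      by_cases h1 : #(Finset.univ.filter (G.Adj x)) ≤ D
      · exact Finset.mem_union_right _ (Finset.mem_union_left _ (by simp [hA1, h1]))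
      · by_cases h2 : #(Finset.univ.filter (Gᶜ.Adj x)) ≤ D
        · exact Finset.mem_union_right _ (Finset.mem_union_right _ (by
            rw [hA2, Finset.mem_filter]; exact ⟨Finset.mem_univ _, h2⟩))
        · exact Finset.mem_union_left _ (by
            rw [hH, Finset.mem_filter]; exact ⟨Finset.mem_univ _, h1, h2⟩)
    have h2 := (Finset.card_le_card this).trans (Finset.card_union_le _ _)
    have h3 := Finset.card_union_le A1 A2
    rw [Finset.card_univ, Fintype.card_fin] at h2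
    omega
  by_cases hHcase : N ≤ 2 * #H
  · left
    have hs := sum_deg_mul_deg G hG1 hG2 (arr_ramsey k l)
    rw [Fintype.card_fin] at hs
    have h1 : #H * ((D + 1) * (D + 1)) ≤
        ∑ x : Fin N, #(Finset.univ.filter (G.Adj x)) * #(Finset.univ.filter (Gᶜ.Adj x)) := by
      refine le_trans ?_ (Finset.sum_le_sum_of_subset (Finset.subset_univ H))
      rw [← smul_eq_mul]
      apply Finset.card_nsmul_le_sum
      intro x hx
      rw [hH, Finset.mem_filter] at hx
      exact Nat.mul_le_mul (by omega) (by omega)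
    have h2 : N * ((D + 1) * (D + 1)) ≤ N * (2 * (N * R)) := by
      calc N * ((D + 1) * (D + 1)) ≤ (2 * #H) * ((D + 1) * (D + 1)) := Nat.mul_le_mul_right _ hHcase
        _ = 2 * (#H * ((D + 1) * (D + 1))) := by ring
        _ ≤ 2 * (N * (N * R)) := Nat.mul_le_mul_left _ (h1.trans hs)
        _ = _ := by ring
    have h3 := Nat.le_of_mul_le_mul_left h2 hN
    have h4 : N * ((t + 1) ^ 2 * N) ≤ N * (128 * K ^ 2 * R) := by
      calc N * ((t + 1) ^ 2 * N) = ((t + 1) * N) * ((t + 1) * N) := by ring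
        _ ≤ (8 * K * (D + 1)) * (8 * K * (D + 1)) := Nat.mul_le_mul hD2 hD2
        _ = 64 * K ^ 2 * ((D + 1) * (D + 1)) := by ring
        _ ≤ 64 * K ^ 2 * (2 * (N * R)) := Nat.mul_le_mul_left _ h3
        _ = _ := by ring
    exact Nat.le_of_mul_le_mul_left h4 hN
  · right
    have h12 : N ≤ 4 * #A1 ∨ N ≤ 4 * #A2 := by omega
    rcases h12 with h1 | h1
    · have hu := unbalanced G hG1 hG2 (arr_es _ k t rfl) A1 (D := D) (by
        intro v hv
        rw [hA1, Finset.mem_filter] at hv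
        exact hv.2) (by
        have h5 : 4 * (2 * (l * D)) ≤ 4 * (#A1 * (t + 1)) := by
          calc 4 * (2 * (l * D)) = 8 * l * D := by ring
            _ ≤ 8 * K * D := Nat.mul_le_mul_right _ (Nat.mul_le_mul_left _ hl)
            _ ≤ (t + 1) * N := hD1
            _ ≤ (t + 1) * (4 * #A1) := Nat.mul_le_mul_left _ h1
            _ = _ := by ring
        omega)
      calc N ≤ 4 * #A1 := h1
        _ ≤ 4 * (2 * (((k + t).choose k + l) * ∑ i ∈ Finset.range (t + 1), l.choose i)) :=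
            Nat.mul_le_mul_left _ hu
        _ = 8 * (((k + t).choose k + l) * ∑ i ∈ Finset.range (t + 1), l.choose i) := by ring
        _ ≤ _ := Nat.mul_le_mul_left _ (Nat.mul_le_mul
            (Nat.add_le_add (hchoose k hk) hl) (hsum l hl))
    · have hu := unbalanced Gᶜ hG2 hG2' (arr_es _ l t rfl) A2 (D := D) (by
        intro v hv
        rw [hA2, Finset.mem_filter] at hv
        exact hv.2) (by
        have h5 : 4 * (2 * (k * D)) ≤ 4 * (#A2 * (t + 1)) := by
          calc 4 * (2 * (k * D)) = 8 * k * D := by ring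
            _ ≤ 8 * K * D := Nat.mul_le_mul_right _ (Nat.mul_le_mul_left _ hk)
            _ ≤ (t + 1) * N := hD1
            _ ≤ (t + 1) * (4 * #A2) := Nat.mul_le_mul_left _ h1
            _ = _ := by ring
        omega)
      calc N ≤ 4 * #A2 := h1
        _ ≤ 4 * (2 * (((l + t).choose l + k) * ∑ i ∈ Finset.range (t + 1), k.choose i)) :=
            Nat.mul_le_mul_left _ hu
        _ = 8 * (((l + t).choose l + k) * ∑ i ∈ Finset.range (t + 1), k.choose i) := by ring
        _ ≤ _ := Nat.mul_le_mul_left _ (Nat.mul_le_mul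
            (Nat.add_le_add (hchoose l hl) hk) (hsum k hk))

lemma sum_choose_le (n t : ℕ) (x : ℝ) (hx : 0 < x) (hx1 : x ≤ 1) :
    ((∑ i ∈ Finset.range (t + 1), n.choose i : ℕ) : ℝ) ≤ (x⁻¹) ^ t * Real.exp (x * n) := by
  have h1 : (1 + x) ^ n ≤ Real.exp (x * n) := by
    rw [mul_comm, Real.exp_nat_mul]
    apply pow_le_pow_left₀ (by linarith)
    linarith [Real.add_one_le_exp x]
  have h2 : x ^ t * ((∑ i ∈ Finset.range (t + 1), n.choose i : ℕ) : ℝ) ≤ (1 + x) ^ n := by
    rw [add_comm (1 : ℝ) x, add_pow, Nat.cast_sum, Finset.mul_sum]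
    calc ∑ i ∈ Finset.range (t + 1), x ^ t * (n.choose i : ℝ)
        ≤ ∑ i ∈ Finset.range (t + 1), x ^ i * 1 ^ (n - i) * (n.choose i : ℝ) := by
          apply Finset.sum_le_sum
          intro i hi
          rw [Finset.mem_range] at hi
          rw [one_pow, mul_one]
          exact mul_le_mul_of_nonneg_right (pow_le_pow_of_le_one hx.le hx1 (by omega))
            (Nat.cast_nonneg _)
      _ ≤ ∑ i ∈ Finset.range (n + 1), x ^ i * 1 ^ (n - i) * (n.choose i : ℝ) := by
          rcases Nat.le_total (t + 1) (n + 1) with h | h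
          · exact Finset.sum_le_sum_of_subset_of_nonneg (Finset.range_subset_range.2 h)
              (fun i _ _ => by positivity)
          · apply le_of_eq
            symm
            apply Finset.sum_subset (Finset.range_subset_range.2 h)
            intro i _ hi
            rw [Finset.mem_range] at hi
            rw [Nat.choose_eq_zero_of_lt (by omega)]
            simp
  have h3 : ((∑ i ∈ Finset.range (t + 1), n.choose i : ℕ) : ℝ) =
      (x⁻¹) ^ t * (x ^ t * ((∑ i ∈ Finset.range (t + 1), n.choose i : ℕ) : ℝ)) := by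
    rw [← mul_assoc, ← mul_pow, inv_mul_cancel₀ hx.ne', one_pow, one_mul]
  rw [h3]
  exact mul_le_mul_of_nonneg_left (h2.trans h1) (by positivity)

lemma choose_le' (n t : ℕ) (x : ℝ) (hx : 0 < x) (hx1 : x ≤ 1) :
    ((n.choose t : ℕ) : ℝ) ≤ (x⁻¹) ^ t * Real.exp (x * n) := by
  refine le_trans ?_ (sum_choose_le n t x hx hx1)
  exact_mod_cast Finset.single_le_sum (f := fun i => n.choose i) (fun i _ => Nat.zero_le _)
    (Finset.self_mem_range_succ t)

/-- The asymptotic estimate. -/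
lemma asymp (ε : ℝ) (hε : 0 < ε) (hε1 : ε ≤ 1) : ∃ τ : ℝ, 0 < τ ∧ ∃ K0 : ℕ, ∀ K m : ℕ,
    K0 ≤ K → ε * K ≤ m →
    8 * (((K + ⌊τ * K⌋₊).choose ⌊τ * K⌋₊ + K) *
      ∑ i ∈ Finset.range (⌊τ * K⌋₊ + 1), K.choose i) < 2 ^ (m / 2) := by
  set x : ℝ := ε / 60 with hx
  have hx0 : 0 < x := by positivity
  have hx1 : x ≤ 1 := by rw [hx]; linarith
  set L : ℝ := Real.log x⁻¹ with hL
  have hL0 : 1 < L := by
    rw [hL, Real.lt_log_iff_exp_lt (by positivity)]
    have : (60 : ℝ) ≤ x⁻¹ := by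
      rw [hx, inv_div, le_div_iff₀ hε]
      linarith
    linarith [Real.exp_one_lt_d9]
  refine ⟨ε / (40 * L), by positivity, ⌈2200 / ε ^ 2⌉₊ + 2, fun K m hK hm => ?_⟩
  set τ : ℝ := ε / (40 * L) with hτ
  have hτ0 : 0 < τ := by positivity
  have hτ1 : τ ≤ 1 := by
    rw [hτ, div_le_one (by positivity)]
    linarith
  set t := ⌊τ * K⌋₊ with ht
  have htK : (t : ℝ) ≤ τ * K := Nat.floor_le (by positivity)
  have htK' : (t : ℝ) ≤ K := htK.trans (by nlinarith [Nat.cast_nonneg (α := ℝ) K])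
  have hKr : 2200 / ε ^ 2 ≤ K := by
    have : ((⌈2200 / ε ^ 2⌉₊ + 2 : ℕ) : ℝ) ≤ K := by exact_mod_cast hK
    push_cast at this
    linarith [Nat.le_ceil (2200 / ε ^ 2)]
  have hK2 : (2 : ℝ) ≤ K := by
    have : ((⌈2200 / ε ^ 2⌉₊ + 2 : ℕ) : ℝ) ≤ K := by exact_mod_cast hK
    push_cast at this
    linarith [Nat.cast_nonneg (α := ℝ) ⌈2200 / ε ^ 2⌉₊]
  have hP := sum_choose_le K t x hx0 hx1
  have hM := choose_le' (K + t) t x hx0 hx1
  have hxt : (x⁻¹) ^ t ≤ Real.exp (ε / 40 * K) := by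
    have h1 : (x⁻¹) ^ t = Real.exp (L * t) := by
      rw [hL, mul_comm, Real.exp_nat_mul, Real.exp_log (by positivity)]
    rw [h1]
    apply Real.exp_le_exp.2
    calc L * t ≤ L * (τ * K) := mul_le_mul_of_nonneg_left htK (by linarith)
      _ = ε / 40 * K := by rw [hτ]; field_simp
  have hP' : ((∑ i ∈ Finset.range (t + 1), K.choose i : ℕ) : ℝ) ≤
      Real.exp (ε / 40 * K) * Real.exp (x * K) :=
    hP.trans (mul_le_mul_of_nonneg_right hxt (Real.exp_pos _).le)
  have hM' : (((K + t).choose t : ℕ) : ℝ) ≤ Real.exp (ε / 40 * K) * Real.exp (x * (2 * K)) := by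
    refine hM.trans (mul_le_mul hxt ?_ (Real.exp_pos _).le (Real.exp_pos _).le)
    apply Real.exp_le_exp.2
    push_cast
    exact mul_le_mul_of_nonneg_left (by linarith) hx0.le
  have hM'' : ((((K + t).choose t : ℕ) : ℝ) + K) ≤
      (1 + K) * (Real.exp (ε / 40 * K) * Real.exp (x * (2 * K))) := by
    have h1 : (1 : ℝ) ≤ Real.exp (ε / 40 * K) * Real.exp (x * (2 * K)) := by
      rw [← Real.exp_add]
      exact Real.one_le_exp (by positivity)
    nlinarith [Nat.cast_nonneg (α := ℝ) K]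
  have hmain : (8 * ((((K + t).choose t : ℕ) : ℝ) + K) *
      ((∑ i ∈ Finset.range (t + 1), K.choose i : ℕ) : ℝ)) ≤
      8 * (1 + K) * Real.exp (ε / 10 * K) := by
    calc (8 * ((((K + t).choose t : ℕ) : ℝ) + K) *
          ((∑ i ∈ Finset.range (t + 1), K.choose i : ℕ) : ℝ))
        ≤ (8 * ((1 + K) * (Real.exp (ε / 40 * K) * Real.exp (x * (2 * K))))) *
          (Real.exp (ε / 40 * K) * Real.exp (x * K)) := by
          apply mul_le_mul (mul_le_mul_of_nonneg_left hM'' (by norm_num)) hP' (by positivity)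
            (by positivity)
      _ = 8 * (1 + K) * Real.exp (ε / 40 * K + x * (2 * K) + (ε / 40 * K + x * K)) := by
          rw [Real.exp_add, Real.exp_add, Real.exp_add]; ring
      _ = 8 * (1 + K) * Real.exp (ε / 10 * K) := by
          congr 2
          rw [hx]; ring
  have hlow : Real.exp (3 / 10 * ε * K - 1) ≤ (2 : ℝ) ^ (m / 2) := by
    have h1 : ((m : ℝ) - 1) / 2 ≤ ((m / 2 : ℕ) : ℝ) := by
      have : m ≤ 2 * (m / 2) + 1 := by omega
      have : (m : ℝ) ≤ 2 * ((m / 2 : ℕ) : ℝ) + 1 := by exact_mod_cast this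
      linarith
    have h2 : (2 : ℝ) ^ (m / 2) = Real.exp (((m / 2 : ℕ) : ℝ) * Real.log 2) := by
      rw [Real.exp_nat_mul, Real.exp_log (by norm_num)]
    rw [h2]
    apply Real.exp_le_exp.2
    have h3 := Real.log_two_gt_d9
    have h4 := Real.log_two_lt_d9
    have h5 : (ε * K - 1) / 2 ≤ ((m / 2 : ℕ) : ℝ) := by linarith
    have h6 : 0 ≤ ε * K := by positivity
    have h7 : 0 ≤ ((m / 2 : ℕ) : ℝ) := Nat.cast_nonneg _
    calc 3 / 10 * ε * K - 1 ≤ (ε * K - 1) / 2 * Real.log 2 := by nlinarith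
      _ ≤ _ := mul_le_mul_of_nonneg_right h5 (by linarith)
  have hfin : 8 * (1 + K) * Real.exp (ε / 10 * K) < Real.exp (3 / 10 * ε * K - 1) := by
    have h1 : Real.exp (3 / 10 * ε * K - 1) =
        Real.exp (ε / 10 * K) * (Real.exp (ε / 5 * K) * Real.exp (-1)) := by
      rw [← Real.exp_add, ← Real.exp_add]
      congr 1
      ring
    rw [h1, mul_comm (8 * (1 + (K : ℝ)))]
    apply mul_lt_mul_of_pos_left _ (Real.exp_pos _)
    have h2 : (ε / 5 * K) ^ 2 / 2 < Real.exp (ε / 5 * K) := by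
      have := Real.quadratic_le_exp_of_nonneg (show 0 ≤ ε / 5 * K by positivity)
      have h3 : 0 ≤ ε / 5 * K := by positivity
      linarith
    have h3 : (44 : ℝ) * K ≤ (ε / 5 * K) ^ 2 / 2 := by
      have : 2200 ≤ K * ε ^ 2 := by
        rwa [div_le_iff₀ (by positivity)] at hKr
      nlinarith
    have h4 : (1 : ℝ) / 2.7182818286 < Real.exp (-1) := by
      rw [Real.exp_neg, one_div]
      exact inv_strictAnti₀ (Real.exp_pos _) Real.exp_one_lt_d9
    have h5 : (8 : ℝ) * (1 + K) ≤ 44 * K * (1 / 2.7182818286) := by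
      rw [mul_one_div, le_div_iff₀ (by norm_num)]
      nlinarith
    calc (8 : ℝ) * (1 + K) ≤ 44 * K * (1 / 2.7182818286) := h5
      _ ≤ Real.exp (ε / 5 * K) * (1 / 2.7182818286) :=
          mul_le_mul_of_nonneg_right (h3.trans h2.le) (by norm_num)
      _ < Real.exp (ε / 5 * K) * Real.exp (-1) := mul_lt_mul_of_pos_left h4 (Real.exp_pos _)
  have : ((8 * (((K + t).choose t + K) * ∑ i ∈ Finset.range (t + 1), K.choose i) : ℕ) : ℝ) <
      ((2 ^ (m / 2) : ℕ) : ℝ) := by
    push_cast at hmain ⊢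
    rw [← mul_assoc]
    exact (hmain.trans_lt hfin).trans_le hlow
  exact_mod_cast this

/-- The bounded ratio theorem, case `ε ≤ 1`. -/
theorem main1 (ε : ℝ) (hε : 0 < ε) (hε1 : ε ≤ 1) : ∃ C : ℝ, ∀ k l : ℕ, 1 ≤ k → 1 ≤ l →
    ε * k ≤ l → ε * l ≤ k → (ramsey (k + 1) (l + 1) : ℝ) ≤ C * ramsey k l := by
  obtain ⟨τ, hτ, K0, hK0⟩ := asymp ε hε hε1
  refine ⟨max (4 ^ (K0 + ⌈4 / ε⌉₊)) (128 / τ ^ 2 + 1), fun k l hk hl h1 h2 => ?_⟩
  set R := ramsey k l with hR
  have hR1 : (1 : ℝ) ≤ R := by exact_mod_cast ramsey_pos k l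
  set K := max k l with hK
  set m := min k l with hm
  have hKm : ε * K ≤ m := by
    rcases Nat.le_total k l with h | h
    · rw [hK, hm, max_eq_right h, min_eq_left h]; exact h2
    · rw [hK, hm, max_eq_left h, min_eq_right h]; exact h1
  by_cases hsmall : K < K0 + ⌈4 / ε⌉₊
  · have h3 : ramsey (k + 1) (l + 1) ≤ 4 ^ (K0 + ⌈4 / ε⌉₊) := by
      calc ramsey (k + 1) (l + 1) ≤ (k + l).choose k := ramsey_le_choose k l
        _ ≤ 2 ^ (k + l) := Nat.choose_le_two_pow _ _
        _ ≤ 2 ^ (2 * (K0 + ⌈4 / ε⌉₊)) := by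
            apply Nat.pow_le_pow_right (by norm_num)
            have := le_max_left k l
            have := le_max_right k l
            omega
        _ = 4 ^ (K0 + ⌈4 / ε⌉₊) := by rw [pow_mul]; norm_num
    calc (ramsey (k + 1) (l + 1) : ℝ) ≤ ((4 ^ (K0 + ⌈4 / ε⌉₊) : ℕ) : ℝ) := by exact_mod_cast h3
      _ = 4 ^ (K0 + ⌈4 / ε⌉₊) := by push_cast; rfl
      _ ≤ 4 ^ (K0 + ⌈4 / ε⌉₊) * R := le_mul_of_one_le_right (by positivity) hR1
      _ ≤ _ := mul_le_mul_of_nonneg_right (le_max_left _ _) (by linarith)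
  · push Not at hsmall
    have hm4 : (4 : ℝ) ≤ m := by
      have : 4 / ε ≤ K := by
        have h3 : ((K0 + ⌈4 / ε⌉₊ : ℕ) : ℝ) ≤ K := by exact_mod_cast hsmall
        push_cast at h3
        linarith [Nat.le_ceil (4 / ε), Nat.cast_nonneg (α := ℝ) K0]
      rw [div_le_iff₀ hε] at this
      linarith
    have hm4' : 4 ≤ m := by exact_mod_cast hm4
    have hlow : 2 ^ (m / 2) < ramsey (k + 1) (l + 1) := by
      have := two_pow_le_ramsey (k + 1) (l + 1) (m + 1) (by omega)
        (by have := min_le_left k l; omega) (by have := min_le_right k l; omega)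
      simpa using this
    have hKpos : 0 < K := lt_of_lt_of_le (by omega : 0 < m) (min_le_max)
    have hpow : 0 < 2 ^ (m / 2) := by positivity
    rcases dichotomy k l K ⌊τ * K⌋₊ (le_max_left _ _) (le_max_right _ _) hKpos (by omega) with h | h
    · have h3 : ((⌊τ * K⌋₊ : ℝ) + 1) ^ 2 * ((ramsey (k + 1) (l + 1) - 1 : ℕ) : ℝ) ≤
          128 * K ^ 2 * R := by exact_mod_cast h
      have h4 : τ * K ≤ (⌊τ * K⌋₊ : ℝ) + 1 := (Nat.lt_floor_add_one _).le
      have hKr : (0 : ℝ) < K := by exact_mod_cast hKpos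
      have h5 : (τ * K) ^ 2 * ((ramsey (k + 1) (l + 1) - 1 : ℕ) : ℝ) ≤ 128 * K ^ 2 * R :=
        le_trans (mul_le_mul_of_nonneg_right (pow_le_pow_left₀ (by positivity) h4 2)
          (Nat.cast_nonneg _)) h3
      have h6 : ((ramsey (k + 1) (l + 1) - 1 : ℕ) : ℝ) ≤ 128 / τ ^ 2 * R := by
        rw [div_mul_eq_mul_div, le_div_iff₀ (by positivity)]
        have : (K : ℝ) ^ 2 * (((ramsey (k + 1) (l + 1) - 1 : ℕ) : ℝ) * τ ^ 2) ≤
            (K : ℝ) ^ 2 * (128 * R) := by nlinarith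
        exact le_of_mul_le_mul_left this (by positivity)
      have h7 : (ramsey (k + 1) (l + 1) : ℝ) = ((ramsey (k + 1) (l + 1) - 1 : ℕ) : ℝ) + 1 := by
        have : ramsey (k + 1) (l + 1) = (ramsey (k + 1) (l + 1) - 1) + 1 := by omega
        exact_mod_cast this
      calc (ramsey (k + 1) (l + 1) : ℝ) ≤ 128 / τ ^ 2 * R + 1 := by linarith
        _ ≤ (128 / τ ^ 2 + 1) * R := by linarith
        _ ≤ _ := mul_le_mul_of_nonneg_right (le_max_right _ _) (by linarith)
    · exfalso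
      have := hK0 K m (by omega) hKm
      omega

/-- **The bounded ratio theorem.** -/
theorem main (ε : ℝ) (hε : 0 < ε) : ∃ C : ℝ, ∀ k l : ℕ, 1 ≤ k → 1 ≤ l →
    ε * k ≤ l → ε * l ≤ k → (ramsey (k + 1) (l + 1) : ℝ) ≤ C * ramsey k l := by
  obtain ⟨C, hC⟩ := main1 (min ε 1) (lt_min hε one_pos) (min_le_right _ _)
  refine ⟨C, fun k l hk hl h1 h2 => hC k l hk hl ?_ ?_⟩
  · exact (mul_le_mul_of_nonneg_right (min_le_left _ _) (Nat.cast_nonneg _)).trans h1
  · exact (mul_le_mul_of_nonneg_right (min_le_left _ _) (Nat.cast_nonneg _)).trans h2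

end Pool.Agent.H28.Ramsey
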