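import Pool.Agent.H28.Ramsey.Basic

/-!
The unbalanced case (a short proof of the Erdos-Szemeredi theorem via a maximal clique) and the
double counting of common neighbourhoods.
-/

open Finset

namespace Pool.Agent.H28.Ramsey

/-- If all vertices of `A` have small degree in `G`, then `A` is small. -/
lemma unbalanced {V : Type} [Fintype V] (G : SimpleGraph V) [DecidableRel G.Adj]
    {k l t D M : ℕ}
    (hk : ∀ S : Finset V, ¬ G.IsNClique (k + 1) S) (hl : ∀ S : Finset V, ¬ Gᶜ.IsNClique (l + 1) S)
    (hM : Arr M (k + 1) (t + 1)) (A : Finset V)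
    (hA : ∀ v ∈ A, #(Finset.univ.filter (G.Adj v)) ≤ D)
    (h : 2 * (l * D) ≤ #A * (t + 1)) :
    #A ≤ 2 * ((M + l) * ∑ i ∈ Finset.range (t + 1), l.choose i) := by
  classical
  -- a maximal blue clique in `A`
  obtain ⟨B, hB, hmax⟩ := Finset.exists_max_image
    (A.powerset.filter (fun S : Finset V => Gᶜ.IsClique (S : Set V))) Finset.card
    ⟨∅, by simp⟩
  rw [Finset.mem_filter, Finset.mem_powerset] at hB
  obtain ⟨hBA, hBc⟩ := hB
  have hBl : #B ≤ l := by
    by_contra hlt
    push Not at hlt
    obtain ⟨T, hT, hc⟩ := Finset.exists_subset_card_eq (s := B) (n := l + 1) (by omega)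
    exact hl T ⟨hBc.subset (by exact_mod_cast hT), hc⟩
  -- double counting
  have hdc : ∑ y ∈ A, #(B.filter (fun v => G.Adj v y)) ≤ l * D := by
    have : ∑ y ∈ A, #(B.filter (fun v => G.Adj v y)) = ∑ v ∈ B, #(A.filter (fun y => G.Adj v y)) := by
      simp_rw [Finset.card_filter]
      exact Finset.sum_comm
    rw [this]
    calc ∑ v ∈ B, #(A.filter (fun y => G.Adj v y)) ≤ ∑ v ∈ B, D := by
          apply Finset.sum_le_sum
          intro v hv
          exact (Finset.card_le_card (Finset.filter_subset_filter _ (Finset.subset_univ A))).trans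
            (hA v (hBA hv))
      _ = #B * D := by rw [Finset.sum_const, smul_eq_mul]
      _ ≤ l * D := Nat.mul_le_mul_right _ hBl
  set A2 := A.filter (fun y => #(B.filter (fun v => G.Adj v y)) ≤ t) with hA2
  have hA2card : #A ≤ 2 * #A2 := by
    have h1 : #(A.filter (fun y => ¬ #(B.filter (fun v => G.Adj v y)) ≤ t)) * (t + 1) ≤ l * D := by
      refine le_trans ?_ hdc
      refine le_trans ?_ (Finset.sum_le_sum_of_subset (Finset.filter_subset
        (fun y => ¬ #(B.filter (fun v => G.Adj v y)) ≤ t) A))
      rw [← smul_eq_mul]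
      apply Finset.card_nsmul_le_sum
      intro y hy
      rw [Finset.mem_filter] at hy
      omega
    have h2 := Finset.card_filter_add_card_filter_not (s := A)
      (fun y => #(B.filter (fun v => G.Adj v y)) ≤ t)
    rw [← hA2] at h2
    set q := #(A.filter (fun y => ¬ #(B.filter (fun v => G.Adj v y)) ≤ t))
    have h3 : (2 * q) * (t + 1) ≤ #A * (t + 1) := by
      calc (2 * q) * (t + 1) = 2 * (q * (t + 1)) := by ring
        _ ≤ 2 * (l * D) := by omega
        _ ≤ _ := h
    have h4 := Nat.le_of_mul_le_mul_right h3 (by omega)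
    omega
  -- patterns
  set P := B.powerset.filter (fun S => #S ≤ t) with hP
  have hPcard : #P ≤ ∑ i ∈ Finset.range (t + 1), l.choose i := by
    calc #P ≤ #((Finset.range (t + 1)).biUnion (fun i => B.powersetCard i)) := by
          apply Finset.card_le_card
          intro S hS
          rw [hP, Finset.mem_filter, Finset.mem_powerset] at hS
          rw [Finset.mem_biUnion]
          exact ⟨#S, by rw [Finset.mem_range]; omega, by
            rw [Finset.mem_powersetCard]; exact ⟨hS.1, rfl⟩⟩
      _ ≤ ∑ i ∈ Finset.range (t + 1), #(B.powersetCard i) := Finset.card_biUnion_le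
      _ ≤ ∑ i ∈ Finset.range (t + 1), l.choose i := by
          apply Finset.sum_le_sum
          intro i _
          rw [Finset.card_powersetCard]
          exact Nat.choose_le_choose i hBl
  have hmaps : ∀ y ∈ A2, B.filter (fun v => G.Adj v y) ∈ P := by
    intro y hy
    rw [hA2, Finset.mem_filter] at hy
    rw [hP, Finset.mem_filter, Finset.mem_powerset]
    exact ⟨Finset.filter_subset _ _, hy.2⟩
  have hfib : ∀ S ∈ P, #(A2.filter (fun y => B.filter (fun v => G.Adj v y) = S)) ≤ M + l := by
    intro S hS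
    by_contra hgt
    push Not at hgt
    set Y := A2.filter (fun y => B.filter (fun v => G.Adj v y) = S) with hY
    rw [hP, Finset.mem_filter, Finset.mem_powerset] at hS
    have hYB : M ≤ #(Y \ B) := by
      have := Finset.le_card_sdiff B Y
      omega
    rcases hM V G (Y \ B) hYB with ⟨I, hI, hIc⟩ | ⟨I, hI, hIc⟩
    · exact hk I hIc
    · -- a larger blue clique
      have hIY : ∀ y ∈ I, y ∈ A ∧ y ∉ B ∧ B.filter (fun v => G.Adj v y) = S := by
        intro y hy
        have := hI hy
        rw [Finset.mem_sdiff, hY, Finset.mem_filter, hA2, Finset.mem_filter] at this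
        exact ⟨this.1.1.1, this.2, this.1.2⟩
      have hdisj : Disjoint (B \ S) I := by
        rw [Finset.disjoint_left]
        intro v hv hvI
        exact (hIY v hvI).2.1 (Finset.mem_sdiff.1 hv).1
      have hcross : ∀ v ∈ B \ S, ∀ y ∈ I, Gᶜ.Adj v y := by
        intro v hv y hy
        rw [Finset.mem_sdiff] at hv
        obtain ⟨_, hyB, hyS⟩ := hIY y hy
        rw [SimpleGraph.compl_adj]
        refine ⟨fun h => hyB (h ▸ hv.1), fun hadj => hv.2 ?_⟩
        rw [← hyS, Finset.mem_filter]
        exact ⟨hv.1, hadj⟩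
      have hclique : Gᶜ.IsClique (((B \ S) ∪ I : Finset V) : Set V) := by
        intro a ha b hb hab
        rw [Finset.mem_coe, Finset.mem_union] at ha hb
        rcases ha with ha | ha <;> rcases hb with hb | hb
        · exact hBc (Finset.mem_coe.2 (Finset.mem_sdiff.1 ha).1)
            (Finset.mem_coe.2 (Finset.mem_sdiff.1 hb).1) hab
        · exact hcross a ha b hb
        · exact (hcross b hb a ha).symm
        · exact hIc.isClique (Finset.mem_coe.2 ha) (Finset.mem_coe.2 hb) hab
      have hsub : (B \ S) ∪ I ⊆ A := by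
        intro x hx
        rcases Finset.mem_union.1 hx with hx | hx
        · exact hBA (Finset.mem_sdiff.1 hx).1
        · exact (hIY x hx).1
      have hle := hmax ((B \ S) ∪ I) (by
        rw [Finset.mem_filter, Finset.mem_powerset]
        exact ⟨hsub, hclique⟩)
      rw [Finset.card_union_of_disjoint hdisj, hIc.card_eq, Finset.card_sdiff_of_subset hS.1] at hle
      have := Finset.card_le_card hS.1
      omega
  have h5 := Finset.card_le_mul_card_image_of_maps_to hmaps (M + l) hfib
  calc #A ≤ 2 * #A2 := hA2card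
    _ ≤ 2 * ((M + l) * #P) := by omega
    _ ≤ _ := Nat.mul_le_mul_left _ (Nat.mul_le_mul_left _ hPcard)

/-- Common neighbourhoods in an extremal colouring. -/
lemma common_lt {V : Type} [Fintype V] (G : SimpleGraph V) [DecidableRel G.Adj]
    [DecidableRel Gᶜ.Adj] {k l R : ℕ}
    (hk : ∀ S : Finset V, ¬ G.IsNClique (k + 1) S) (hl : ∀ S : Finset V, ¬ Gᶜ.IsNClique (l + 1) S)
    (hR : Arr R k l) (v w : V) :
    #(Finset.univ.filter (fun x => G.Adj v x ∧ Gᶜ.Adj w x)) ≤ R := by
  classical
  by_contra hcon
  push Not at hcon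
  rcases hR V G _ hcon.le with ⟨S, hS, hSc⟩ | ⟨S, hS, hSc⟩
  · exact hk (insert v S) (hSc.insert (fun x hx => by
      have := hS hx
      rw [Finset.mem_filter] at this
      exact this.2.1))
  · exact hl (insert w S) (hSc.insert (fun x hx => by
      have := hS hx
      rw [Finset.mem_filter] at this
      exact this.2.2))

lemma sum_deg_mul_deg {V : Type} [Fintype V] (G : SimpleGraph V) [DecidableRel G.Adj]
    [DecidableRel Gᶜ.Adj] {k l R : ℕ}
    (hk : ∀ S : Finset V, ¬ G.IsNClique (k + 1) S) (hl : ∀ S : Finset V, ¬ Gᶜ.IsNClique (l + 1) S)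
    (hR : Arr R k l) :
    ∑ x : V, #(Finset.univ.filter (G.Adj x)) * #(Finset.univ.filter (Gᶜ.Adj x)) ≤
      Fintype.card V * (Fintype.card V * R) := by
  have h1 : ∀ x : V, #(Finset.univ.filter (G.Adj x)) * #(Finset.univ.filter (Gᶜ.Adj x)) =
      ∑ v : V, ∑ w : V, if G.Adj v x ∧ Gᶜ.Adj w x then 1 else 0 := by
    intro x
    rw [Finset.card_filter, Finset.card_filter, Finset.sum_mul_sum]
    refine Finset.sum_congr rfl fun v _ => Finset.sum_congr rfl fun w _ => ?_
    simp only [G.adj_comm x v, Gᶜ.adj_comm x w]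
    by_cases h1 : G.Adj v x <;> by_cases h2 : Gᶜ.Adj w x <;> simp only [h1, h2, and_self, and_true,
      and_false, if_true, if_false, mul_one, mul_zero]
  simp_rw [h1]
  rw [Finset.sum_comm]
  calc ∑ v : V, ∑ x : V, ∑ w : V, (if G.Adj v x ∧ Gᶜ.Adj w x then 1 else 0)
      = ∑ v : V, ∑ w : V, ∑ x : V, (if G.Adj v x ∧ Gᶜ.Adj w x then 1 else 0) := by
        refine Finset.sum_congr rfl fun v _ => Finset.sum_comm
    _ ≤ ∑ v : V, ∑ w : V, R := by
        refine Finset.sum_le_sum fun v _ => Finset.sum_le_sum fun w _ => ?_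
        rw [← Finset.card_filter]
        exact common_lt G hk hl hR v w
    _ = Fintype.card V * (Fintype.card V * R) := by
        simp [Finset.sum_const, Finset.card_univ]

end Pool.Agent.H28.Ramsey
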